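import Mathlib

namespace Pool.Agent.Results.MP_c26838_an.Scaled

open Filter Topology ENNReal BoundedContinuousFunction

/-- `B` with the product `x y / (n + 1)`. -/
def S (B : Type) (_ : ℕ) := B

variable {B : Type} [NormedRing B] [NormedAlgebra ℂ B]

noncomputable def c (n : ℕ) : ℂ := ((n : ℂ) + 1)⁻¹

lemma cn (n : ℕ) : ‖c n‖ = 1 / ((n : ℝ) + 1) := by
  rw [c, norm_inv, one_div]; norm_cast

noncomputable instance (n : ℕ) : NormedAddCommGroup (S B n) := inferInstanceAs (NormedAddCommGroup B)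
noncomputable instance (n : ℕ) : NormedSpace ℂ (S B n) := inferInstanceAs (NormedSpace ℂ B)
instance [CompleteSpace B] (n : ℕ) : CompleteSpace (S B n) := inferInstanceAs (CompleteSpace B)

noncomputable def mu (n : ℕ) (x y : B) : B := c n • (x * y)

lemma mun (n : ℕ) (x y : B) : ‖mu n x y‖ ≤ 1 / ((n : ℝ) + 1) * (‖x‖ * ‖y‖) := by
  rw [mu, norm_smul, cn]; gcongr; exact norm_mul_le _ _

noncomputable instance (n : ℕ) : NonUnitalNormedRing (S B n) where
  mul := mu (B := B) n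
  left_distrib (x y z : B) := show mu n x (y + z) = mu n x y + mu n x z by simp [mu, mul_add]
  right_distrib (x y z : B) := show mu n (x + y) z = mu n x z + mu n y z by simp [mu, add_mul]
  zero_mul (x : B) := show mu n 0 x = 0 by simp [mu]
  mul_zero (x : B) := show mu n x 0 = 0 by simp [mu]
  mul_assoc (x y z : B) := show mu n (mu n x y) z = mu n x (mu n y z) by simp [mu, mul_assoc]
  dist_eq := NormedAddGroup.dist_eq
  norm_mul_le (x y : B) := (mun n x y).trans (mul_le_of_le_one_left (by positivity) (by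
    rw [div_le_one (by positivity)]; simp))

instance (n : ℕ) : IsScalarTower ℂ (S B n) (S B n) :=
  ⟨fun a (x y : B) => show mu n (a • x) y = a • mu n x y by simp [mu, smul_comm a]⟩
instance (n : ℕ) : SMulCommClass ℂ (S B n) (S B n) :=
  ⟨fun a (x y : B) => show a • mu n x y = mu n x (a • y) by simp [mu, smul_comm a]⟩

variable (B) in
abbrev U (n : ℕ) := WithLp 1 (Unitization ℂ (S B n))

instance (n : ℕ) : NormOneClass (U B n) := ⟨by
  rw [WithLp.unitization_norm_def]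
  change ‖(1 : ℂ)‖ + ‖(0 : S B n)‖ = 1
  simp⟩

noncomputable def ph (n : ℕ) : U B n →+* B where
  toFun u := u.ofLp.fst • 1 + c n • (show B from u.ofLp.snd)
  map_one' := show (1 : ℂ) • (1 : B) + c n • (0 : B) = 1 by simp
  map_zero' := show (0 : ℂ) • (1 : B) + c n • (0 : B) = 0 by simp
  map_mul' := by
    rintro ⟨a, x⟩ ⟨b, y⟩
    change B at x y
    change (a * b) • (1 : B) + c n • (a • y + b • x + mu n x y) = (a • 1 + c n • x) * (b • 1 + c n • y)
    simp only [mu, mul_add, add_mul, smul_mul_assoc, mul_smul_comm, one_mul, mul_one]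
    module
  map_add' := by
    rintro ⟨a, x⟩ ⟨b, y⟩
    change B at x y
    change (a + b) • (1 : B) + c n • (x + y) = (a • 1 + c n • x) + (b • 1 + c n • y)
    module

lemma nd [NormOneClass B] [CompleteSpace B] {a b : B} (ab : a * b = 1) (ba : b * a ≠ 1) (n : ℕ) :
    ¬ Dense {x : U B n | IsUnit x} := fun h => by
  have c0 : c n ≠ 0 := inv_ne_zero (by norm_cast)
  obtain ⟨u, hu, hd⟩ := h.exists_dist_lt (WithLp.toLp 1 ⟨0, (c n)⁻¹ • a⟩ : U B n)
    (show 0 < 1 / (‖b‖ + 1) by positivity)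
  have e : ph n (WithLp.toLp 1 ⟨0, (c n)⁻¹ • a⟩) = a :=
    show (0 : ℂ) • (1 : B) + c n • (c n)⁻¹ • a = a by simp [smul_smul, c0]
  have l : ∀ v : U B n, ‖ph n v‖ ≤ ‖v‖ := fun v => by
    rw [WithLp.unitization_norm_def]
    refine (norm_add_le _ _).trans (add_le_add (by simp [norm_smul]) ?_)
    refine (norm_smul (c n) (show B from v.ofLp.snd)).trans_le ?_
    rw [cn]
    exact mul_le_of_le_one_left (norm_nonneg _) (by rw [div_le_one (by positivity)]; simp)
  have h1 := (l _).trans_lt ((dist_eq_norm _ _).symm.trans_lt hd)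
  rw [map_sub, e, lt_div_iff₀ (by positivity)] at h1
  have h2 : IsUnit (ph n u * b) := by
    have : ph n u * b = 1 - (a - ph n u) * b := by rw [sub_mul, ab]; simp
    rw [this]
    exact (Units.oneSub _ ((norm_mul_le _ _).trans_lt (by nlinarith [norm_nonneg (a - ph n u)]))).isUnit
  have h3 : IsUnit b := ((hu.map (ph n)).unit.isUnit_units_mul b).1 h2
  exact ba (h3.mul_right_cancel (by rw [mul_assoc, ab]; simp))

lemma asy (x : lp (U B) ∞) (ε : ℝ) (hε : ε > 0) : ∃ y : lp (U B) ∞, IsUnit ((TwoSidedIdeal.span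
      {z : lp (U B) ∞ | Tendsto (fun n => ‖z n‖) atTop (𝓝 0)}).ringCon.mk' y) ∧
        limsup (fun n => ‖x n - y n‖) atTop < ε := by
  let l : ℕ → ℂ := fun n => if ε / 4 ≤ ‖(x n).ofLp.fst‖ then (x n).ofLp.fst else (ε / 4 : ℝ)
  have h4 : ‖((ε / 4 : ℝ) : ℂ)‖ = ε / 4 := by rw [Complex.norm_real, Real.norm_of_nonneg (by positivity)]
  have l1 : ∀ n, ε / 4 ≤ ‖l n‖ := fun n => by simp only [l]; split_ifs with h; exacts [h, h4.ge]
  have l0 : ∀ n, l n ≠ 0 := fun n => norm_pos_iff.1 (by linarith [l1 n])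
  have l2 : ∀ n, ‖(x n).ofLp.fst - l n‖ ≤ ε / 2 := fun n => by
    simp only [l]; split_ifs with h
    · simp; positivity
    · exact (norm_sub_le _ _).trans (by linarith)
  have li : ∀ n, ‖(l n)⁻¹‖ ≤ (ε / 4)⁻¹ := fun n => by rw [norm_inv]; gcongr; exact l1 n
  have xb : ∀ n, ‖(x n).ofLp.snd‖ ≤ ‖x‖ := fun n => le_trans (by
    rw [WithLp.unitization_norm_def]; simp) (lp.norm_apply_le_norm top_ne_zero x n)
  let y : ∀ n, U B n := fun n => WithLp.toLp 1 ⟨l n, (x n).ofLp.snd⟩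
  let z : ∀ n, U B n := fun n => WithLp.toLp 1 ⟨(l n)⁻¹, -((l n)⁻¹ * (l n)⁻¹) • (x n).ofLp.snd⟩
  have xy : ∀ n, ‖x n - y n‖ ≤ ε / 2 := fun n => by
    rw [WithLp.unitization_norm_def]
    change ‖(x n).ofLp.fst - l n‖ + ‖(x n).ofLp.snd - (x n).ofLp.snd‖ ≤ _
    simpa using l2 n
  have zb : ∀ n, ‖-((l n)⁻¹ * (l n)⁻¹) • (x n).ofLp.snd‖ ≤ (ε / 4)⁻¹ * (ε / 4)⁻¹ * ‖x‖ := fun n => by
    rw [norm_smul, norm_neg, norm_mul]; gcongr; exacts [li n, li n, xb n]
  have hy : Memℓp y ∞ := memℓp_infty ⟨‖x‖ + ε / 2, by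
    rintro _ ⟨n, rfl⟩
    have := norm_sub_norm_le (y n) (x n)
    rw [norm_sub_rev] at this
    linarith [xy n, lp.norm_apply_le_norm top_ne_zero x n]⟩
  have hz : Memℓp z ∞ := memℓp_infty ⟨_, by
    rintro _ ⟨n, rfl⟩
    simp only [WithLp.unitization_norm_def]
    exact add_le_add (li n) (zb n)⟩
  have key : ∀ w : lp (U B) ∞, (∀ n, (w n).ofLp.fst = 1 ∧ (w n).ofLp.snd = -((l n)⁻¹ * (l n)⁻¹) •
      ((x n).ofLp.snd * (x n).ofLp.snd)) → (TwoSidedIdeal.span
      {z : lp (U B) ∞ | Tendsto (fun n => ‖z n‖) atTop (𝓝 0)}).ringCon.mk' w = 1 := fun w hw => by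
    refine (RingCon.eq _).2 ((TwoSidedIdeal.rel_iff _ _ _).2 (TwoSidedIdeal.subset_span ?_))
    refine squeeze_zero (fun _ => norm_nonneg _) (fun n => ?_) (by
      simpa using (tendsto_one_div_add_atTop_nhds_zero_nat (𝕜 := ℝ)).const_mul
        ((ε / 4)⁻¹ * (ε / 4)⁻¹ * (‖x‖ * ‖x‖)))
    rw [WithLp.unitization_norm_def]
    change ‖(w n).ofLp.fst - 1‖ + ‖(w n).ofLp.snd - 0‖ ≤ _
    rw [(hw n).1, (hw n).2, sub_self, norm_zero, zero_add, sub_zero, norm_smul, norm_neg, norm_mul]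
    refine le_of_le_of_eq (mul_le_mul (mul_le_mul (li n) (li n) (norm_nonneg _) (by positivity))
      ((mun (B := B) n _ _).trans (mul_le_mul_of_nonneg_left (mul_le_mul (xb n) (xb n) (norm_nonneg _)
        (norm_nonneg _)) (by positivity))) (norm_nonneg _) (by positivity)) ?_
    simp only [one_div]; ring
  refine ⟨⟨y, hy⟩, ⟨⟨_, RingCon.mk' _ ⟨z, hz⟩, ?_, ?_⟩, rfl⟩, ?_⟩
  · rw [← map_mul]
    refine key _ fun n => ⟨mul_inv_cancel₀ (l0 n), ?_⟩
    generalize hs : (x n).ofLp.snd = s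
    change l n • -((l n)⁻¹ * (l n)⁻¹) • (x n).ofLp.snd + (l n)⁻¹ • (x n).ofLp.snd +
      (x n).ofLp.snd * -((l n)⁻¹ * (l n)⁻¹) • (x n).ofLp.snd = _
    rw [hs, mul_smul_comm, smul_smul, ← add_smul]
    simp [l0 n]
  · rw [← map_mul]
    refine key _ fun n => ⟨inv_mul_cancel₀ (l0 n), ?_⟩
    generalize hs : (x n).ofLp.snd = s
    change (l n)⁻¹ • (x n).ofLp.snd + l n • -((l n)⁻¹ * (l n)⁻¹) • (x n).ofLp.snd +
      (-((l n)⁻¹ * (l n)⁻¹) • (x n).ofLp.snd) * (x n).ofLp.snd = _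
    rw [hs, smul_mul_assoc, smul_smul, ← add_smul]
    simp [l0 n]
  · exact (limsup_le_of_le (isCoboundedUnder_le_of_le atTop fun _ => norm_nonneg _)
      (Eventually.of_forall xy)).trans_lt (by linarith)

/-- The class of `y` in the quotient of `R` by the ideal spanned by `s` is invertible. -/
def UnitMod {R : Type} [Ring R] (s : Set R) (y : R) : Prop :=
  IsUnit ((TwoSidedIdeal.span s).ringCon.mk' y)

/-- Null sequences. -/
def c0 (A : ℕ → Type) [∀ n, NormedRing (A n)] : Set (lp A ∞) :=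
  {z | Tendsto (fun n => ‖z n‖) atTop (𝓝 0)}

/-- The quotient norm of the class of `x - y`. -/
noncomputable def qd {A : ℕ → Type} [∀ n, NormedRing (A n)] (x y : lp A ∞) : ℝ :=
  limsup (fun n => ‖x n - y n‖) atTop

/-- `Asy(A n)` has stable rank one. -/
def AsySR1 (A : ℕ → Type) [∀ n, NormedRing (A n)] [∀ n, NormOneClass (A n)] : Prop :=
  ∀ x : lp A ∞, ∀ ε > 0, ∃ y : lp A ∞, UnitMod (c0 A) y ∧ qd x y < ε

theorem result : ∃ (A : ℕ → Type) (_ : ∀ n, NormedRing (A n)) (_ : ∀ n, NormedAlgebra ℂ (A n))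
    (_ : ∀ n, NormOneClass (A n)), (∀ n, CompleteSpace (A n)) ∧ AsySR1 A ∧
    ∀ n, ¬ Dense {x : A n | IsUnit x} := by
  let B := (ℕ →ᵇ ℂ) →L[ℂ] (ℕ →ᵇ ℂ)
  let a : B := compContinuousCLM ℂ ℂ ⟨fun k => k + 1, continuous_of_discreteTopology⟩
  let b : B := compContinuousCLM ℂ ℂ ⟨fun k => k - 1, continuous_of_discreteTopology⟩
  have : Nontrivial (ℕ →ᵇ ℂ) := ⟨0, 1, fun h => zero_ne_one' ℂ (congrArg (· 0) h)⟩
  have : NormOneClass B := ⟨ContinuousLinearMap.norm_id⟩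
  refine ⟨U B, inferInstance, inferInstance, inferInstance, inferInstance, asy,
    nd (a := a) (b := b) (by ext f k; rfl) fun ba => ?_⟩
  have := congrArg (fun T : B => T (ofNormedAddCommGroupDiscrete (fun k : ℕ => if k = 0 then (1 : ℂ)
    else 0) 1 fun k => by split_ifs <;> simp) 0) ba
  exact zero_ne_one' ℂ this

end Pool.Agent.Results.MP_c26838_an.Scaled
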